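import Mathlib
import Pool.Agent.H21.FTDefs
import Pool.Agent.H21.Sec

namespace Pool.Agent.Results.MP_66c699_al.Torsion

open Pool.Agent.H21.FPP Pool.Agent.H21.FT Pool.Agent.H21.Sec
open scoped commutatorElement

variable {d E : ℕ} {G : Subgroup (autT d)}

def Good (G : Subgroup (autT d)) (E : ℕ) : Prop :=
  (∀ g ∈ G, ∀ x, sec g x ∈ G) ∧ ∀ g ∈ (lev d (E + 1)).ker, (∀ x, sec g x ∈ G) → g ∈ G

lemma good (h : IsFT G (E + 1)) : Good G E := by
  obtain ⟨P, hP⟩ := h
  refine ⟨fun g hg x => (hP _).2 fun v h hs => (hP g).1 hg (x :: v) h fun w => ?_,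
    fun g hg hs => (hP _).2 fun v h hv => ?_⟩
  · rw [List.cons_append, ap, ap, hs w, List.cons_append]
  · cases v with
    | nil =>
      have : res d (E + 1) h = 1 := Equiv.ext fun u => Subtype.ext (by
        have := hv u.1
        rw [nil, List.nil_append, List.nil_append] at this
        exact this.symm.trans (ker_iff.1 (ker_le u.2 hg) _ rfl))
      rw [this]
      exact one_mem _
    | cons x v =>
      refine (hP _).1 (hs x) v h fun w => ?_
      have := hv w
      rw [List.cons_append, ap, ap, List.cons_append] at this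
      exact (List.cons.inj this).2

lemma io_mem (hG : Good G E) (x : Fin d) {k : autT d} (h : k ∈ St G E) : io x k ∈ St G E :=
  ⟨hG.2 _ (io_ker x h.2) fun y => by rw [sec_io]; split_ifs; exacts [h.1, one_mem _],
    ker_mono _ (io_ker x h.2)⟩

variable {A : Type} [CommGroup A]

def Hom (K : Subgroup (autT d)) (χ : autT d → A) : Prop :=
  ∀ a ∈ K, ∀ b ∈ K, χ (a * b) = χ a * χ b

lemma Hom.one {K : Subgroup (autT d)} {χ : autT d → A} (h : Hom K χ) : χ 1 = 1 := by
  simpa using h 1 (one_mem _) 1 (one_mem _)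

lemma Hom.pow {K : Subgroup (autT d)} {χ : autT d → A} (h : Hom K χ) {a} (ha : a ∈ K) (n : ℕ) :
    χ (a ^ n) = χ a ^ n := by
  induction n with
  | zero => simpa using h.one
  | succ n ih => rw [pow_succ, h _ (pow_mem ha n) _ ha, ih, pow_succ]

lemma split (hG : Good G E) {χ : autT d → A} (h : Hom (St G E) χ) (S : Finset (Fin d)) :
    ∀ u ∈ St G (E + 1), (∀ x ∉ S, sec u x = 1) → χ u = ∏ x ∈ S, χ (io x (sec u x)) := by
  induction S using Finset.induction_on with
  | empty =>
    intro u hu hs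
    rw [aext (h := 1) (fun x => (ker_succ.1 hu.2 x).1) (fun x => hs x (by simp)), h.one]
    rfl
  | insert a S ha ih =>
    intro u hu hs
    have hk : sec u a ∈ St G E := ⟨hG.1 u hu.1 a, (ker_succ.1 hu.2 a).2⟩
    have h1 := io_mem hG a hk
    have h2 : (io a (sec u a))⁻¹ * u ∈ St G (E + 1) :=
      ⟨G.mul_mem (G.inv_mem h1.1) hu.1, Subgroup.mul_mem _ (Subgroup.inv_mem _ (io_ker a hk.2)) hu.2⟩
    have h3 : ∀ x, sec ((io a (sec u a))⁻¹ * u) x = if x = a then 1 else sec u x := fun x => by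
      rw [sec_mul, (ker_succ.1 hu.2 x).1, ← map_inv, sec_io]
      split_ifs with hx
      · simp [hx]
      · simp
    have h4 := ih _ h2 fun x hx => by
      rw [h3]
      split_ifs with h5
      · rfl
      · exact hs x (by simp [h5, hx])
    rw [Finset.prod_insert ha, ← Finset.prod_congr rfl fun x hx =>
      (by rw [h3, if_neg (by rintro rfl; exact ha hx)] :
        χ (io x (sec ((io a (sec u a))⁻¹ * u) x)) = χ (io x (sec u x))), ← h4,
      ← h _ h1 _ ⟨h2.1, ker_mono _ h2.2⟩, mul_inv_cancel_left]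

lemma conj_mem {g k : autT d} (hg : g ∈ G) (hk : k ∈ St G E) : g * k * g⁻¹ ∈ St G E :=
  ⟨G.mul_mem (G.mul_mem hg hk.1) (G.inv_mem hg), (MonoidHom.normal_ker _).conj_mem _ hk.2 g⟩

lemma main (hG : Good G E) (M : ℕ) (hM : ∀ g : autT d, g ^ M ∈ (lev d (E + 1)).ker) (n : ℕ) :
    ∀ g ∈ G, ∀ χ : autT d → A, Hom (St G E) χ → (∀ k ∈ St G E, k ∈ (lev d n).ker → χ k = 1) →
      (∀ k ∈ St G E, χ (g * k * g⁻¹) = χ k) → χ (g ^ M) = 1 := by
  induction n with
  | zero => exact fun g hg χ _ h0 _ => h0 _ ⟨pow_mem hg M, ker_mono _ (hM g)⟩ (ker_zero _)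
  | succ n ih =>
    intro g hg χ h h0 hi
    have hs : ∀ x, sec (g ^ M) x ∈ St G E := fun x =>
      ⟨hG.1 _ (pow_mem hg M) x, (ker_succ.1 (hM g) x).2⟩
    have hr : ∀ x, rt (g ^ M) x = x := fun x => (ker_succ.1 (hM g) x).1
    have hl : ∀ (l : ℕ), ∀ k ∈ St G E, χ (g ^ l * k * (g ^ l)⁻¹) = χ k := fun l => by
      induction l with
      | zero => simp
      | succ l ihl =>
        intro k hk
        rw [← ihl k hk, ← hi _ (conj_mem (pow_mem hg l) hk)]
        congr 1
        group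
    rw [split hG h Finset.univ _ ⟨pow_mem hg M, hM g⟩ (by simp)]
    refine prod_orb (rt g) _ (fun x => ?_) fun x l hx => ?_
    · rw [← hi _ (io_mem hG x (hs x)), conj_io]
      congr 2
      rw [eq_mul_inv_iff_mul_eq, ← sec_mul, ← pow_succ, pow_succ', sec_mul, hr]
    · rw [← map_pow] at hx
      rw [← h.pow (io_mem hG x (hs x)), ← map_pow, ← sec_pow (hr x), ← pow_mul, mul_comm, pow_mul,
        sec_pow hx]
      refine ih _ (hG.1 _ (pow_mem hg l) x) (fun k => χ (io x k))
        (fun a ha b hb => ?_) (fun k hk hn => h0 _ (io_mem hG x hk) (io_ker x hn)) fun k hk => ?_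
      · simp only [map_mul]
        exact h _ (io_mem hG x ha) _ (io_mem hG x hb)
      · rw [← hl l _ (io_mem hG x hk), conj_io, hx]

theorem result (d D : ℕ) (hD : 1 ≤ D) (G : Subgroup (autT d)) (hG : IsFT G D) :
    ∃ m : ℕ, 0 < m ∧ ∀ g ∈ St G (D - 1), InClosure ⁅St G (D - 1), St G (D - 1)⁆ (g ^ m) := by
  classical
  obtain ⟨E, rfl⟩ : ∃ E, D = E + 1 := ⟨D - 1, by omega⟩
  refine ⟨Nat.card (Equiv.Perm {v : List (Fin d) // v.length = E + 1}), Nat.card_pos,
    fun g hg n => ?_⟩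
  rw [Nat.add_sub_cancel] at *
  let f : St G E →* Abelianization ((St G E).map (lev d n)) :=
    Abelianization.of.comp ((lev d n).subgroupMap _)
  have hf : ∀ k (hk : k ∈ St G E), (if h : k ∈ St G E then f ⟨k, h⟩ else 1) = f ⟨k, hk⟩ :=
    fun k hk => dif_pos hk
  have := main (good hG) _ (fun g => by rw [MonoidHom.mem_ker, map_pow, pow_card_eq_one']) n g hg.1
    (fun k => if h : k ∈ St G E then f ⟨k, h⟩ else 1)
    (fun a ha b hb => by
      simp only []
      rw [hf _ ha, hf _ hb, hf _ (mul_mem ha hb), ← map_mul]; rfl)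
    (fun k hk hn => by
      rw [hf _ hk]
      have e : (lev d n).subgroupMap (St G E) ⟨k, hk⟩ = 1 := Subtype.ext (MonoidHom.mem_ker.1 hn)
      exact (congrArg Abelianization.of e).trans (map_one _))
    fun k hk => by
      rw [hf _ hk, hf _ (conj_mem hg.1 hk)]
      refine (map_mul f (⟨g, hg⟩ * ⟨k, hk⟩) ⟨g, hg⟩⁻¹).trans ?_
      rw [map_mul, map_inv, mul_inv_cancel_comm]
  rw [hf _ (pow_mem hg _)] at this
  have h2 := Subgroup.mem_map_of_mem (Subgroup.subtype _)
    ((Abelianization.ker_of _).le (MonoidHom.mem_ker.2 this))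
  rw [Subgroup.map_subtype_commutator, ← Subgroup.map_commutator] at h2
  exact h2

end Pool.Agent.Results.MP_66c699_al.Torsion
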